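import Pool.Agent.Run7.h249.BW.UMain

/-!
# Almost all posets of bounded width have a nearly balanced pair

Let `𝒞` be a class of finite posets that is closed under induced subposets and under direct sums and
contains posets with an element incomparable to arbitrarily many elements, for example the class of
all posets of width at most `w`, with `w ≥ 2`.  Then for every `ε > 0` all but an exponentially small
proportion of the posets with `n` points in `𝒞`, labelled or up to isomorphism, have balance constant
at least `1/2 - ε`.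

Proof.  By the starting theorem `ManyIncomparable` a poset with balance constant less than `1/2 - ε`
is `K`-thin: every element is incomparable to fewer than `K = K(ε)` others.  Let `q n` and `b n` be the
numbers of the `K`-thin posets on `n` points in `𝒞` and of all posets on `n` points in `𝒞`, divided
by `n!`.  A `K`-thin poset is determined by a lower set with `m` elements, the orders on it and on its
complement, and the incomparable pairs between them, which all lie in a set of at most `(2 K) ^ 2`
pairs determined by these orders; so `q (m + n) ≤ 2 ^ (2 K) ^ 2 * q m * q n`.  Let `D` be a poset in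
`𝒞` of smallest cardinality `d` that is not `K`-thin; it is not a direct sum.  The direct sums
`P ⊕ D ⊕ Q` with `P` a `K`-thin poset in `𝒞` and `Q` any poset in `𝒞` are in `𝒞`, and `P`, the copy
of `D` and `Q` are determined by the sum, as `P` is the largest `K`-thin lower part.  So
`b n ≥ (1 / d!) ∑ m, q m * b (n - m - d)`.  These inequalities give `ρ ^ n * q n ≤ 2 * b n` for some
`ρ > 1`.  The same argument works for the numbers of isomorphism classes, without factorials.
-/

set_option autoImplicit false

namespace Pool.Agent.Results.MP_33fb9b_co.AlmostAllBoundedWidth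

open Pool.Agent.H13R3.WB (balance)
open Pool.Agent.Run7.h249.BW (SubClosed SumClosed Unb WidthLe classes)

theorem result :
    (∀ 𝒞 : ∀ α : Type, PartialOrder α → Prop, SubClosed 𝒞 → SumClosed 𝒞 → Unb 𝒞 →
      ∀ ε : ℝ, 0 < ε → ∃ ρ : ℝ, 1 < ρ ∧ ∀ n : ℕ,
        ρ ^ n * (Nat.card {o : PartialOrder (Fin n) // 𝒞 (Fin n) o ∧
          @balance (Fin n) _ o < 1 / 2 - ε} : ℝ) ≤
        2 * (Nat.card {o : PartialOrder (Fin n) // 𝒞 (Fin n) o} : ℝ) ∧
        ρ ^ n * (classes n (fun o => 𝒞 (Fin n) o ∧ @balance (Fin n) _ o < 1 / 2 - ε) : ℝ) ≤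
        2 * (classes n (fun o => 𝒞 (Fin n) o) : ℝ)) ∧
    (∀ w : ℕ, 2 ≤ w → ∀ ε : ℝ, 0 < ε → ∃ ρ : ℝ, 1 < ρ ∧ ∀ n : ℕ,
        ρ ^ n * (Nat.card {o : PartialOrder (Fin n) // WidthLe w (Fin n) o ∧
          @balance (Fin n) _ o < 1 / 2 - ε} : ℝ) ≤
        2 * (Nat.card {o : PartialOrder (Fin n) // WidthLe w (Fin n) o} : ℝ) ∧
        ρ ^ n * (classes n (fun o => WidthLe w (Fin n) o ∧
          @balance (Fin n) _ o < 1 / 2 - ε) : ℝ) ≤
        2 * (classes n (fun o => WidthLe w (Fin n) o) : ℝ)) :=
  ⟨fun _ h1 h2 h3 _ hε => Pool.Agent.Run7.h249.BW.almost_all_both h1 h2 h3 hε,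
    fun w hw _ hε => Pool.Agent.Run7.h249.BW.almost_all_both (Pool.Agent.Run7.h249.BW.width_sub w)
      (Pool.Agent.Run7.h249.BW.width_sum w) (Pool.Agent.Run7.h249.BW.width_unb hw) hε⟩

end Pool.Agent.Results.MP_33fb9b_co.AlmostAllBoundedWidth
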