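import Pool.Agent.Run7.h640.FP.Fin

/-!
# The gap question for balance constants is a finite question, with a polynomial rate

The balance constant `balance` and the class `InD` (the class `𝒟`) are those of the problem.  There
are absolute constants `C, c > 0` such that for every nonempty finite poset `P` outside `𝒟` and every
`n ≥ 2` there is a nonempty poset `Q` outside `𝒟` with at most `n` elements and
`balance Q ≤ balance P + C n ^ (-c)`.  So the infimum of the balance constants outside `𝒟` is attained
up to `C n ^ (-c)` by posets with at most `n` elements.  Consequently Q1 has a positive answer if and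
only if for some `n` all posets outside `𝒟` with at most `n` elements have balance constant at least
`1/3 + 2 C n ^ (-c)`: a positive answer to Q1 has a finite proof, by checking small posets.

Proof.  If the balance constant of `P` is less than `2/5` then, by the starting result
`ManyIncomparable`, every element of `P` is incomparable to at most `K` others, with an absolute
constant `K`.  Number `P` by a linear extension; then elements at distance at least `D = 2 K + 2` are
comparable.  A uniformly random linear extension of such a poset forgets the far past: the
probability that `x` comes before `y`, as a function of the set of the elements which have been placed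
before, contracts by the factor `1 - (2 D) ^ (-D)` in `D` steps (Doeblin).  So the probability is
determined, up to `2 ρ ^ q`, by the poset induced on the numbers at distance less than `(q + 2) D`.
There are only `2 ^ (2 R D)` different windows of length `2 R`; if `P` is longer than `4 * 2 ^ (2 R D)`,
two equal windows are far enough from a fixed window and the part between them can be cut out, which
creates no new windows of length `R`.  A bad component of the incomparability graph (one which is
neither a vertex nor a path with three vertices) is kept; a poset is in `𝒟` if and only if there is none.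
-/

set_option autoImplicit false

namespace Pool.Agent.Results.MP_33fb9b_co.FiniteReduction

open Pool.Agent.H13R3.WB

theorem result :
    ∃ C c : ℝ, 0 < C ∧ 0 < c ∧
      (∀ (P : Type) [Fintype P] [PartialOrder P] [Nonempty P], ¬ InD P → ∀ n : ℕ, 2 ≤ n →
        ∃ (Q : Type) (_ : Fintype Q) (_ : PartialOrder Q) (_ : Nonempty Q),
          Fintype.card Q ≤ n ∧ ¬ InD Q ∧ balance Q ≤ balance P + C * (n : ℝ) ^ (-c)) ∧
      ((∃ ε : ℝ, 0 < ε ∧ ∀ (P : Type) [Fintype P] [PartialOrder P] [Nonempty P], ¬ InD P →
          1 / 3 + ε ≤ balance P) ↔
        ∃ n : ℕ, 2 ≤ n ∧ ∀ (Q : Type) [Fintype Q] [PartialOrder Q] [Nonempty Q],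
          Fintype.card Q ≤ n → ¬ InD Q → 1 / 3 + 2 * C * (n : ℝ) ^ (-c) ≤ balance Q) := by
  obtain ⟨C, c, hC, hc, h⟩ := Run7.h640.FP.outsideD_final
  refine ⟨C, c, hC, hc, h, ?_, ?_⟩
  · rintro ⟨ε, hε, hP⟩
    have ht : Filter.Tendsto (fun n : ℕ => 2 * C * (n : ℝ) ^ (-c)) Filter.atTop
        (nhds (2 * C * 0)) :=
      ((tendsto_rpow_neg_atTop hc).comp tendsto_natCast_atTop_atTop).const_mul _
    rw [mul_zero] at ht
    obtain ⟨n, hn, hn2⟩ := ((ht.eventually (gt_mem_nhds hε)).and
      (Filter.eventually_ge_atTop 2)).exists
    refine ⟨n, hn2, ?_⟩
    intro Q _ _ _ _ hQ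
    have := hP Q hQ
    linarith
  · rintro ⟨n, hn, hQ⟩
    have hn0 : (0 : ℝ) < n := by
      have : 0 < n := by omega
      exact_mod_cast this
    have hpos : 0 < C * (n : ℝ) ^ (-c) := mul_pos hC (Real.rpow_pos_of_pos hn0 _)
    refine ⟨C * (n : ℝ) ^ (-c), hpos, ?_⟩
    intro P _ _ _ hP
    obtain ⟨Q, i1, i2, i3, h1, h2, h3⟩ := h P hP n hn
    have := hQ Q h1 h2
    linarith

end Pool.Agent.Results.MP_33fb9b_co.FiniteReduction
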